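import Pool.Agent.Helper97.Sub.Defs

set_option autoImplicit false

namespace Pool.Agent.Helper97.Sub

open MeasureTheory Metric Set Filter
open scoped ComplexConjugate Topology

theorem B_rep (x : AddCircle (1 : ℝ)) : ∃ y : ℝ, (y : AddCircle (1 : ℝ)) = x ∧ |y| = ‖x‖ ∧ |y| ≤ 1 / 2 := by
  obtain ⟨w, rfl⟩ := QuotientAddGroup.mk_surjective x
  refine ⟨w - round w, ?_, ?_, ?_⟩
  · have : ((w - round w : ℝ) : AddCircle (1 : ℝ)) = (w : AddCircle (1 : ℝ)) := by
      rw [AddCircle.coe_sub]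
      have : ((round w : ℝ) : AddCircle (1 : ℝ)) = 0 := by
        rw [AddCircle.coe_eq_zero_iff]
        exact ⟨round w, by simp⟩
      rw [this, sub_zero]
    exact this
  · exact (UnitAddCircle.norm_eq (x := w)).symm
  · exact abs_sub_round w

theorem B_fourier (j : ℕ) (y : ℝ) : fourier (j : ℤ) ((y : ℝ) : AddCircle (1 : ℝ)) =
    Complex.exp (Complex.I * (2 * Real.pi * y : ℝ)) ^ j := by
  rw [fourier_coe_apply, ← Complex.exp_nat_mul]
  congr 1
  push_cast
  ring

theorem B_upper (N : ℕ) (x : AddCircle (1 : ℝ)) :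
    ‖∑ j ∈ Finset.range N, fourier (j : ℤ) x‖ * (2 * ‖x‖) ≤ 1 := by
  obtain ⟨y, rfl, hy, hy2⟩ := B_rep x
  rw [← hy]
  simp only [B_fourier]
  have h1 : (∑ j ∈ Finset.range N, Complex.exp (Complex.I * (2 * Real.pi * y : ℝ)) ^ j) *
      (Complex.exp (Complex.I * (2 * Real.pi * y : ℝ)) - 1) =
      Complex.exp (Complex.I * (2 * Real.pi * y : ℝ)) ^ N - 1 := geom_sum_mul _ _
  have h2 : ‖Complex.exp (Complex.I * (2 * Real.pi * y : ℝ)) ^ N - 1‖ ≤ 2 := by
    refine (norm_sub_le _ _).trans ?_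
    rw [norm_pow, mul_comm Complex.I, Complex.norm_exp_ofReal_mul_I]
    norm_num
  have h3 : 4 * |y| ≤ ‖Complex.exp (Complex.I * (2 * Real.pi * y : ℝ)) - 1‖ := by
    rw [Complex.norm_exp_I_mul_ofReal_sub_one, Real.norm_eq_abs, abs_mul, abs_two]
    have e : 2 * Real.pi * y / 2 = Real.pi * y := by ring
    rw [e]
    have hs : |Real.sin (Real.pi * y)| = Real.sin (Real.pi * |y|) := by
      rcases le_total 0 y with h0 | h0
      · rw [abs_of_nonneg h0] at hy2 ⊢
        refine abs_of_nonneg (Real.sin_nonneg_of_nonneg_of_le_pi (by positivity) ?_)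
        nlinarith [Real.pi_pos]
      · rw [abs_of_nonpos h0] at hy2 ⊢
        rw [mul_neg, Real.sin_neg]
        refine abs_of_nonpos ?_
        have := Real.sin_nonneg_of_nonneg_of_le_pi (x := Real.pi * (-y))
          (mul_nonneg Real.pi_pos.le (by linarith)) (by nlinarith [Real.pi_pos])
        rw [mul_neg, Real.sin_neg] at this
        linarith
    rw [hs]
    have := Real.mul_le_sin (x := Real.pi * |y|) (by positivity) (by nlinarith [Real.pi_pos])
    have e2 : 2 / Real.pi * (Real.pi * |y|) = 2 * |y| := by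
      field_simp
    rw [e2] at this
    linarith
  have h4 : ‖∑ j ∈ Finset.range N, Complex.exp (Complex.I * (2 * Real.pi * y : ℝ)) ^ j‖ * (4 * |y|) ≤ 2 := by
    refine (mul_le_mul_of_nonneg_left h3 (norm_nonneg _)).trans ?_
    rw [← norm_mul, h1]
    exact h2
  nlinarith

theorem B_upper' (N : ℕ) (x : AddCircle (1 : ℝ)) :
    ‖∑ j ∈ Finset.range N, fourier (j : ℤ) x‖ ≤ N := by
  refine (norm_sum_le _ _).trans ?_
  have : ∀ j ∈ Finset.range N, ‖(fourier (j : ℤ) x : ℂ)‖ ≤ 1 := by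
    intro j _
    simp
  refine (Finset.sum_le_sum this).trans ?_
  simp

theorem B_lower (N : ℕ) (x : AddCircle (1 : ℝ)) (hx : ‖x‖ * (8 * N) ≤ 1) :
    (N : ℝ) / 2 ≤ ‖∑ j ∈ Finset.range N, fourier (j : ℤ) x‖ := by
  obtain ⟨y, rfl, hy, hy2⟩ := B_rep x
  rw [← hy] at hx
  refine le_trans ?_ (Complex.re_le_norm _)
  rw [Complex.re_sum]
  have : ∀ j ∈ Finset.range N, (1 / 2 : ℝ) ≤ (fourier (j : ℤ) ((y : ℝ) : AddCircle (1 : ℝ)) : ℂ).re := by
    intro j hj
    rw [B_fourier, ← Complex.exp_nat_mul]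
    have e : (j : ℂ) * (Complex.I * (2 * Real.pi * y : ℝ)) = ((j * (2 * Real.pi * y) : ℝ) : ℂ) * Complex.I := by
      push_cast; ring
    rw [e, Complex.exp_ofReal_mul_I_re, ← Real.cos_abs, ← Real.cos_pi_div_three]
    refine Real.cos_le_cos_of_nonneg_of_le_pi (abs_nonneg _) (by linarith [Real.pi_pos]) ?_
    rw [abs_mul, abs_mul, abs_of_nonneg (by positivity : (0 : ℝ) ≤ j),
      abs_of_nonneg (by positivity : (0 : ℝ) ≤ 2 * Real.pi)]
    have hjN : (j : ℝ) ≤ N := by exact_mod_cast (Finset.mem_range.1 hj).le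
    have : (j : ℝ) * |y| ≤ 1 / 8 := by nlinarith [abs_nonneg y]
    nlinarith [Real.pi_pos]
  refine le_trans ?_ (Finset.sum_le_sum this)
  simp
  linarith


theorem B_cont (N : ℕ) (s : AddCircle (1 : ℝ)) :
    Continuous fun t : AddCircle (1 : ℝ) => ‖∑ j ∈ Finset.range N, fourier (j : ℤ) (t - s)‖ ^ 2 := by
  fun_prop

theorem B_int (ν : Measure (AddCircle (1 : ℝ))) [IsFiniteMeasure ν] (N : ℕ) (s : AddCircle (1 : ℝ)) :
    Integrable (fun t : AddCircle (1 : ℝ) => ‖∑ j ∈ Finset.range N, fourier (j : ℤ) (t - s)‖ ^ 2) ν := by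
  refine Integrable.of_bound (B_cont N s).aestronglyMeasurable ((N : ℝ) ^ 2) (ae_of_all _ fun t => ?_)
  rw [Real.norm_eq_abs, abs_of_nonneg (by positivity)]
  exact pow_le_pow_left₀ (norm_nonneg _) (B_upper' N _) 2

theorem B_pt (N : ℕ) (hN : 1 ≤ N) (s t : AddCircle (1 : ℝ)) :
    ‖∑ j ∈ Finset.range N, fourier (j : ℤ) (t - s)‖ ^ 2 ≤
      ∑ i ∈ Finset.range (N + 1), (closedBall s ((2 : ℝ) ^ i / N)).indicator
        (fun _ => (N : ℝ) ^ 2 / 4 ^ i) t := by
  have hN0 : (0 : ℝ) < N := by exact_mod_cast hN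
  have hu2 : ‖t - s‖ ≤ 1 / 2 := by
    have := AddCircle.norm_le_half_period (1 : ℝ) (x := t - s) one_ne_zero
    simpa using this
  have hex : ∃ i : ℕ, ‖t - s‖ ≤ 2 ^ i / N := by
    refine ⟨N, hu2.trans ?_⟩
    rw [le_div_iff₀ hN0]
    have : (N : ℝ) ≤ 2 ^ N := by exact_mod_cast (Nat.lt_two_pow_self (n := N)).le
    linarith
  classical
  have hle : Nat.find hex ≤ N := Nat.find_min' hex (by
    refine hu2.trans ?_
    rw [le_div_iff₀ hN0]
    have : (N : ℝ) ≤ 2 ^ N := by exact_mod_cast (Nat.lt_two_pow_self (n := N)).le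
    linarith)
  set i := Nat.find hex with hi
  have hispec : ‖t - s‖ ≤ 2 ^ i / N := Nat.find_spec hex
  have hmain : ‖∑ j ∈ Finset.range N, fourier (j : ℤ) (t - s)‖ ^ 2 ≤ (N : ℝ) ^ 2 / 4 ^ i := by
    rcases Nat.eq_zero_or_pos i with h0 | h0
    · rw [h0, pow_zero, div_one]
      exact pow_le_pow_left₀ (norm_nonneg _) (B_upper' N _) 2
    · have hlt : 2 ^ (i - 1) / (N : ℝ) < ‖t - s‖ := by
        have := Nat.find_min hex (m := i - 1) (by omega)
        exact not_le.1 this
      have hup := B_upper N (t - s)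
      set D := ‖∑ j ∈ Finset.range N, fourier (j : ℤ) (t - s)‖ with hD
      have hD0 : 0 ≤ D := norm_nonneg _
      have h2 : (2 : ℝ) ^ i = 2 * 2 ^ (i - 1) := by
        rw [← pow_succ']; congr 1; omega
      have h3 : D * (2 ^ i / N) ≤ 1 := by
        rw [h2]
        have : D * (2 * 2 ^ (i - 1) / N) ≤ D * (2 * ‖t - s‖) := by
          refine mul_le_mul_of_nonneg_left ?_ hD0
          rw [mul_div_assoc]
          linarith
        linarith
      have h4 : D ≤ N / 2 ^ i := by
        rw [le_div_iff₀ (by positivity)]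
        have := mul_le_mul_of_nonneg_right h3 hN0.le
        rw [one_mul] at this
        calc D * 2 ^ i = D * (2 ^ i / N) * N := by field_simp
          _ ≤ N := this
      calc D ^ 2 ≤ (N / 2 ^ i) ^ 2 := pow_le_pow_left₀ hD0 h4 2
        _ = (N : ℝ) ^ 2 / 4 ^ i := by rw [div_pow, ← pow_mul, mul_comm i 2, pow_mul]; norm_num
  refine hmain.trans ?_
  have hnn : ∀ i' ∈ Finset.range (N + 1), 0 ≤ (closedBall s ((2 : ℝ) ^ i' / N)).indicator
      (fun _ => (N : ℝ) ^ 2 / 4 ^ i') t := fun i' _ => by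
    refine indicator_nonneg (fun _ _ => by positivity) _
  have hmem : t ∈ closedBall s ((2 : ℝ) ^ i / N) := by
    rw [mem_closedBall, dist_eq_norm]; exact hispec
  have := Finset.single_le_sum hnn (Finset.mem_range.2 (by omega : i < N + 1))
  rw [indicator_of_mem hmem] at this
  exact this

theorem B_good (ν : Measure (AddCircle (1 : ℝ))) [IsFiniteMeasure ν] (s : AddCircle (1 : ℝ))
    (c C r₀ : ℝ) (hc : 0 < c) (hC : 0 ≤ C) (hr : 0 < r₀)
    (h1 : ∀ r, 0 < r → r < r₀ → c * r ≤ ν.real (closedBall s r))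
    (h2 : ∀ r, 0 < r → ν.real (closedBall s r) ≤ C * r) : Good ν s := by
  refine ⟨c / 32, by positivity, 2 * C, ⌈1 / r₀⌉₊ + 1, ?_, ?_⟩
  · intro N hN
    have hN0 : (0 : ℝ) < N := by exact_mod_cast (by omega : 0 < N)
    have hNr : 1 / (8 * (N : ℝ)) < r₀ := by
      rw [div_lt_iff₀ (by positivity)]
      have h3 : 1 / r₀ < N := by
        calc 1 / r₀ ≤ (⌈1 / r₀⌉₊ : ℝ) := Nat.le_ceil _
          _ < N := by exact_mod_cast hN
      rw [div_lt_iff₀ hr] at h3
      nlinarith
    have h4 := h1 (1 / (8 * N)) (by positivity) hNr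
    have h5 : ∀ t ∈ closedBall s (1 / (8 * (N : ℝ))), ((N : ℝ) / 2) ^ 2 ≤
        ‖∑ j ∈ Finset.range N, fourier (j : ℤ) (t - s)‖ ^ 2 := by
      intro t ht
      rw [mem_closedBall, dist_eq_norm] at ht
      refine pow_le_pow_left₀ (by positivity) (B_lower N _ ?_) 2
      have := mul_le_mul_of_nonneg_right ht (by positivity : (0 : ℝ) ≤ 8 * N)
      refine this.trans (le_of_eq ?_)
      field_simp
    have h6 : ((N : ℝ) / 2) ^ 2 * ν.real (closedBall s (1 / (8 * N))) ≤ KN ν N s := by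
      have e1 : ((N : ℝ) / 2) ^ 2 * ν.real (closedBall s (1 / (8 * N))) =
          ∫ t in closedBall s (1 / (8 * (N : ℝ))), ((N : ℝ) / 2) ^ 2 ∂ν := by
        rw [setIntegral_const, smul_eq_mul, mul_comm]
      rw [e1, KN]
      refine (setIntegral_mono_on (integrable_const _).integrableOn (B_int ν N s).integrableOn
        isClosed_closedBall.measurableSet h5).trans ?_
      exact setIntegral_le_integral (B_int ν N s) (ae_of_all _ fun t => by positivity)
    refine le_trans ?_ h6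
    have : ((N : ℝ) / 2) ^ 2 * (c * (1 / (8 * N))) ≤ ((N : ℝ) / 2) ^ 2 * ν.real (closedBall s (1 / (8 * N))) :=
      mul_le_mul_of_nonneg_left h4 (by positivity)
    refine le_trans (le_of_eq ?_) this
    field_simp
    ring
  · intro N
    rcases Nat.eq_zero_or_pos N with rfl | hN
    · simp [KN]
    have hN0 : (0 : ℝ) < N := by exact_mod_cast hN
    have hi : ∀ i ∈ Finset.range (N + 1), Integrable ((closedBall s ((2 : ℝ) ^ i / N)).indicator
        (fun _ : AddCircle (1 : ℝ) => (N : ℝ) ^ 2 / 4 ^ i)) ν := fun i _ =>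
      (integrable_const _).indicator isClosed_closedBall.measurableSet
    have h3 : KN ν N s ≤ ∑ i ∈ Finset.range (N + 1), ∫ t, (closedBall s ((2 : ℝ) ^ i / N)).indicator
        (fun _ : AddCircle (1 : ℝ) => (N : ℝ) ^ 2 / 4 ^ i) t ∂ν := by
      rw [← integral_finsetSum _ hi]
      refine integral_mono (B_int ν N s) (integrable_finsetSum _ hi) fun t => ?_
      exact B_pt N hN s t
    refine h3.trans ?_
    have h4 : ∀ i ∈ Finset.range (N + 1), ∫ t, (closedBall s ((2 : ℝ) ^ i / N)).indicator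
        (fun _ : AddCircle (1 : ℝ) => (N : ℝ) ^ 2 / 4 ^ i) t ∂ν ≤ C * N * (1 / 2) ^ i := by
      intro i _
      rw [integral_indicator isClosed_closedBall.measurableSet, setIntegral_const, smul_eq_mul]
      have := h2 ((2 : ℝ) ^ i / N) (by positivity)
      calc ν.real (closedBall s ((2 : ℝ) ^ i / N)) * ((N : ℝ) ^ 2 / 4 ^ i)
          ≤ (C * ((2 : ℝ) ^ i / N)) * ((N : ℝ) ^ 2 / 4 ^ i) :=
            mul_le_mul_of_nonneg_right this (by positivity)
        _ = C * N * (1 / 2) ^ i := by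
            have : (4 : ℝ) ^ i = 2 ^ i * 2 ^ i := by rw [← mul_pow]; norm_num
            rw [this, div_pow, one_pow]
            field_simp
    refine (Finset.sum_le_sum h4).trans ?_
    rw [← Finset.mul_sum]
    have h5 : ∑ i ∈ Finset.range (N + 1), ((1 : ℝ) / 2) ^ i ≤ 2 := by
      have := Summable.sum_le_tsum (Finset.range (N + 1)) (fun i _ => by positivity)
        (summable_geometric_two)
      rw [tsum_geometric_two] at this
      exact this
    nlinarith [mul_nonneg hC hN0.le]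

theorem B : B_stmt := by
  intro ν hν hns
  have hae : ∀ᵐ s ∂(volume : Measure (AddCircle (1 : ℝ))), Tendsto
      (fun r : ℝ => ν (closedBall s r) / volume (closedBall s r)) (𝓝[>] 0)
      (𝓝 (ν.rnDeriv volume s)) := by
    filter_upwards [VitaliFamily.ae_tendsto_rnDeriv
      (IsUnifLocDoublingMeasure.vitaliFamily (volume : Measure (AddCircle (1 : ℝ))) 1) ν] with s hs
    refine hs.comp (IsUnifLocDoublingMeasure.tendsto_closedBall_filterAt
      (volume : Measure (AddCircle (1 : ℝ))) (fun _ : ℝ => s) (fun r => r) tendsto_id ?_)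
    filter_upwards [self_mem_nhdsWithin] with r hr
    have : (0 : ℝ) < r := hr
    simp [this.le]
  have hfin : ∀ᵐ s ∂(volume : Measure (AddCircle (1 : ℝ))), ν.rnDeriv volume s < ⊤ :=
    Measure.rnDeriv_lt_top ν volume
  set A : Set (AddCircle (1 : ℝ)) := {s | 0 < ν.rnDeriv volume s} with hA
  have hAm : MeasurableSet A := measurableSet_lt measurable_const (Measure.measurable_rnDeriv _ _)
  have hA0 : volume A ≠ 0 := by
    intro h0
    apply hns
    have h1 : ν.rnDeriv volume =ᵐ[volume] 0 := by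
      have : ∀ᵐ s ∂(volume : Measure (AddCircle (1 : ℝ))), s ∉ A := measure_eq_zero_iff_ae_notMem.1 h0
      filter_upwards [this] with s hs
      simpa [hA] using hs
    exact (Measure.rnDeriv_eq_zero ν volume).1 h1
  have hgood : ∀ᵐ s ∂(volume : Measure (AddCircle (1 : ℝ))), s ∈ A → Good ν s := by
    filter_upwards [hae, hfin] with s hs hf hsA
    set h := ν.rnDeriv volume s with hh
    have hpos : 0 < h := hsA
    have hne : h ≠ 0 := hpos.ne'
    have h1 : ∀ᶠ r in 𝓝[>] (0 : ℝ), h / 2 < ν (closedBall s r) / volume (closedBall s r) :=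
      hs.eventually (lt_mem_nhds (ENNReal.half_lt_self hne hf.ne))
    have h2 : ∀ᶠ r in 𝓝[>] (0 : ℝ), ν (closedBall s r) / volume (closedBall s r) < h + 1 :=
      hs.eventually (gt_mem_nhds (ENNReal.lt_add_right hf.ne one_ne_zero))
    obtain ⟨r₀, hr₀, hr⟩ := mem_nhdsGT_iff_exists_Ioo_subset.1 (h1.and h2)
    have hr₀' : (0 : ℝ) < r₀ := hr₀
    set r₁ := min r₀ (1 / 2) with hr₁
    have hr₁0 : 0 < r₁ := lt_min hr₀' (by norm_num)
    have hvol : ∀ r, 0 < r → r < r₁ → volume (closedBall s r) = ENNReal.ofReal (2 * r) := by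
      intro r hr0 hr1
      rw [AddCircle.volume_closedBall, min_eq_right]
      have := lt_of_lt_of_le hr1 (min_le_right _ _)
      linarith
    have hlow : ∀ r, 0 < r → r < r₁ → h.toReal * r ≤ ν.real (closedBall s r) := by
      intro r hr0 hr1
      have h3 := (hr ⟨hr0, lt_of_lt_of_le hr1 (min_le_left _ _)⟩).1
      rw [hvol r hr0 hr1] at h3
      have h4 : h / 2 * ENNReal.ofReal (2 * r) ≤ ν (closedBall s r) := by
        rw [← ENNReal.le_div_iff_mul_le (Or.inl (by simpa using hr0)) (Or.inl ENNReal.ofReal_ne_top)]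
        exact h3.le
      have h5 := ENNReal.toReal_mono (measure_ne_top _ _) h4
      rw [ENNReal.toReal_mul, ENNReal.toReal_ofReal (by positivity), ENNReal.toReal_div] at h5
      have e : h.toReal / (2 : ENNReal).toReal * (2 * r) = h.toReal * r := by
        rw [ENNReal.toReal_ofNat]; ring
      rw [e] at h5
      exact h5
    have hup : ∀ r, 0 < r → r < r₁ → ν.real (closedBall s r) ≤ (2 * (h.toReal + 1)) * r := by
      intro r hr0 hr1
      have h3 := (hr ⟨hr0, lt_of_lt_of_le hr1 (min_le_left _ _)⟩).2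
      rw [hvol r hr0 hr1] at h3
      have h4 : ν (closedBall s r) ≤ (h + 1) * ENNReal.ofReal (2 * r) := by
        rw [← ENNReal.div_le_iff_le_mul (Or.inl (by simpa using hr0)) (Or.inl ENNReal.ofReal_ne_top)]
        exact h3.le
      have h5 := ENNReal.toReal_mono (ENNReal.mul_ne_top (by simp [hf.ne]) ENNReal.ofReal_ne_top) h4
      rw [ENNReal.toReal_mul, ENNReal.toReal_ofReal (by positivity),
        ENNReal.toReal_add hf.ne ENNReal.one_ne_top, ENNReal.toReal_one] at h5
      refine h5.trans (le_of_eq (by ring))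
    refine B_good ν s h.toReal (2 * (h.toReal + 1) + ν.real univ / r₁) r₁
      (ENNReal.toReal_pos hne hf.ne) (by positivity) hr₁0 hlow ?_
    intro r hr0
    rcases lt_or_ge r r₁ with hlt | hge
    · refine (hup r hr0 hlt).trans ?_
      refine mul_le_mul_of_nonneg_right ?_ hr0.le
      have : 0 ≤ ν.real univ / r₁ := by positivity
      linarith
    · have h6 : ν.real (closedBall s r) ≤ ν.real univ := measureReal_mono (subset_univ _)
      refine h6.trans ?_
      have h7 : ν.real univ ≤ ν.real univ / r₁ * r := by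
        rw [div_mul_eq_mul_div, le_div_iff₀ hr₁0]
        exact mul_le_mul_of_nonneg_left hge measureReal_nonneg
      have h8 : 0 ≤ 2 * (h.toReal + 1) * r := by positivity
      nlinarith
  intro h0
  apply hA0
  have hmp := AddCircle.measurePreserving_mk (1 : ℝ) 0
  have h1 : ∀ᵐ ω ∂(volume.restrict (Ioc (0 : ℝ) (0 + 1))),
      ((ω : ℝ) : AddCircle (1 : ℝ)) ∈ A → Good ν ((ω : ℝ) : AddCircle (1 : ℝ)) :=
    hmp.quasiMeasurePreserving.ae hgood
  have h2 : ∀ᵐ ω ∂(volume.restrict (Ioc (0 : ℝ) (0 + 1))), ¬ Good ν ((ω : ℝ) : AddCircle (1 : ℝ)) :=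
    ae_restrict_of_ae (measure_eq_zero_iff_ae_notMem.1 h0)
  have h3 : (volume.restrict (Ioc (0 : ℝ) (0 + 1)))
      ((fun ω : ℝ => (ω : AddCircle (1 : ℝ))) ⁻¹' A) = 0 := by
    rw [measure_eq_zero_iff_ae_notMem]
    filter_upwards [h1, h2] with ω hω hω' hmem
    exact hω' (hω hmem)
  rw [hmp.measure_preimage hAm.nullMeasurableSet] at h3
  exact h3

end Pool.Agent.Helper97.Sub
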