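import Pool.Agent.Helper97.Sub.Defs

set_option autoImplicit false

namespace Pool.Agent.Helper97.Sub

open MeasureTheory Metric Set Filter
open scoped ComplexConjugate Topology

/-- finite measures on the circle with the same nonnegative Fourier coefficients are equal -/
theorem C1_ext (ν ν' : Measure (AddCircle (1 : ℝ))) [IsFiniteMeasure ν] [IsFiniteMeasure ν']
    (h : ∀ n : ℕ, ∫ t, (fourier (n : ℤ) t : ℂ) ∂ν = ∫ t, (fourier (n : ℤ) t : ℂ) ∂ν') : ν = ν' := by
  have hint : ∀ (ρ : Measure (AddCircle (1 : ℝ))) [IsFiniteMeasure ρ] (φ : C(AddCircle (1 : ℝ), ℂ)),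
      Integrable (fun t => φ t) ρ := by
    intro ρ _ φ
    exact Integrable.of_bound φ.continuous.aestronglyMeasurable ‖φ‖ (ae_of_all _ fun t => φ.norm_coe_le_norm t)
  have hall : ∀ n : ℤ, ∫ t, (fourier n t : ℂ) ∂ν = ∫ t, (fourier n t : ℂ) ∂ν' := by
    intro n
    obtain ⟨m, rfl | rfl⟩ := n.eq_nat_or_neg
    · exact h m
    · have : ∀ ρ : Measure (AddCircle (1 : ℝ)), ∫ t, (fourier (-(m : ℤ)) t : ℂ) ∂ρ =
          conj (∫ t, (fourier (m : ℤ) t : ℂ) ∂ρ) := by
        intro ρ
        rw [← integral_conj]
        congr 1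
        ext t
        exact fourier_neg
      rw [this, this, h]
  have hlin : ∀ φ : C(AddCircle (1 : ℝ), ℂ), ∫ t, φ t ∂ν = ∫ t, φ t ∂ν' := by
    let V : Submodule ℂ C(AddCircle (1 : ℝ), ℂ) :=
      { carrier := {φ | ∫ t, φ t ∂ν = ∫ t, φ t ∂ν'}
        add_mem' := by
          intro a b ha hb
          simp only [mem_ofPred_eq] at *
          simp only [ContinuousMap.add_apply]
          rw [integral_add (hint ν a) (hint ν b), integral_add (hint ν' a) (hint ν' b), ha, hb]
        zero_mem' := by simp
        smul_mem' := by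
          intro c a ha
          simp only [mem_ofPred_eq] at *
          simp only [ContinuousMap.smul_apply]
          rw [integral_smul, integral_smul, ha] }
    have hcl : IsClosed (V : Set C(AddCircle (1 : ℝ), ℂ)) := by
      have hc : ∀ (ρ : Measure (AddCircle (1 : ℝ))) [IsFiniteMeasure ρ],
          Continuous fun φ : C(AddCircle (1 : ℝ), ℂ) => ∫ t, φ t ∂ρ := by
        intro ρ _
        refine LipschitzWith.continuous (K := (ρ.real univ).toNNReal) (LipschitzWith.of_dist_le_mul ?_)
        intro a b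
        rw [dist_eq_norm, ← integral_sub (hint ρ a) (hint ρ b), Real.coe_toNNReal _ measureReal_nonneg]
        have := norm_integral_le_of_norm_le_const (μ := ρ) (f := fun t => a t - b t) (C := dist a b)
          (ae_of_all _ fun t => by
            rw [← dist_eq_norm]; exact ContinuousMap.dist_apply_le_dist t)
        rw [mul_comm] at this
        exact this
      exact isClosed_eq (hc ν) (hc ν')
    have hle : (Submodule.span ℂ (range <| @fourier (1 : ℝ))).topologicalClosure ≤ V := by
      refine Submodule.topologicalClosure_minimal _ (Submodule.span_le.2 ?_) hcl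
      rintro _ ⟨n, rfl⟩
      exact hall n
    have : Fact ((0 : ℝ) < 1) := ⟨one_pos⟩
    rw [span_fourier_closure_eq_top] at hle
    intro φ
    exact hle (Submodule.mem_top (x := φ))
  refine ext_of_forall_integral_eq_of_IsFiniteMeasure fun f => ?_
  have h1 := hlin ⟨fun t => ((f t : ℝ) : ℂ), by fun_prop⟩
  simp only [ContinuousMap.coe_mk] at h1
  rw [integral_complex_ofReal, integral_complex_ofReal] at h1
  exact_mod_cast h1

theorem C1_int {Ω : Type} [MeasurableSpace Ω] {μ : Measure Ω} [IsProbabilityMeasure μ] {T : Ω → Ω}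
    (hT : MeasurePreserving T μ μ) {f : Ω → ℂ} (hf : MemLp f 2 μ) (n : ℕ) :
    Integrable (fun x => f (T^[n] x) * conj (f x)) μ := by
  have h1 : MemLp (fun x => f (T^[n] x)) 2 μ := hf.comp_measurePreserving (hT.iterate n)
  have h2 : MemLp (fun x => conj (f x)) 2 μ := hf.star
  exact h1.integrable_mul h2

theorem C1_mass {Ω : Type} [MeasurableSpace Ω] {μ : Measure Ω} [IsProbabilityMeasure μ] {T : Ω → Ω}
    {f : Ω → ℂ} {ν : Measure (AddCircle (1 : ℝ))} (h : IsSpec μ T f ν) :
    ν.real univ = ∫ x, ‖f x‖ ^ 2 ∂μ := by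
  have h0 := h.2 0
  simp only [Nat.cast_zero, fourier_zero, Function.iterate_zero, id_eq] at h0
  have e : ∀ x, f x * conj (f x) = ((‖f x‖ ^ 2 : ℝ) : ℂ) := fun x => by
    rw [Complex.mul_conj, Complex.normSq_eq_norm_sq]
  simp only [e] at h0
  rw [integral_complex_ofReal, integral_const, Complex.real_smul, mul_one] at h0
  exact_mod_cast h0

theorem C1 (hA1 : A1_stmt) : C1_stmt := by
  intro Ω _ μ _ T hT f hf happ ν hν
  choose g hg hgd hgs using fun k : ℕ => happ (1 / ((k : ℝ) + 1)) (by positivity)
  choose νg hνg using fun k : ℕ => hA1 Ω μ T hT (g k) (hg k)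
  choose νd hνd using fun k : ℕ => hA1 Ω μ T hT (fun x => f x - g k x) (hf.sub (hg k))
  have hf2 : ∀ k, MemLp (fun x => f x - 2 * g k x) 2 μ := fun k => hf.sub ((hg k).const_mul 2)
  choose νe hνe using fun k : ℕ => hA1 Ω μ T hT (fun x => f x - 2 * g k x) (hf2 k)
  have := hν.1
  have := fun k => (hνg k).1
  have := fun k => (hνd k).1
  have := fun k => (hνe k).1
  have hint : ∀ (ρ : Measure (AddCircle (1 : ℝ))) [IsFiniteMeasure ρ] (n : ℕ),
      Integrable (fun t => (fourier (n : ℤ) t : ℂ)) ρ := by
    intro ρ _ n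
    exact Integrable.of_bound (by fun_prop) 1 (ae_of_all _ fun t => by simp)
  have hkey : ∀ k, ν + νe k = (νg k + νg k) + (νd k + νd k) := by
    intro k
    refine C1_ext _ _ fun n => ?_
    rw [integral_add_measure (hint _ n) (hint _ n), integral_add_measure (hint _ n) (hint _ n),
      integral_add_measure (hint _ n) (hint _ n), integral_add_measure (hint _ n) (hint _ n),
      hν.2 n, (hνe k).2 n, (hνg k).2 n, (hνd k).2 n]
    have i1 := C1_int hT hf n
    have i2 := C1_int hT (hf2 k) n
    have i3 := C1_int hT (hg k) n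
    have i4 := C1_int hT (hf.sub (hg k)) n
    simp only [Pi.sub_apply] at i4
    have i33 : Integrable (fun x => g k (T^[n] x) * (starRingEnd ℂ) (g k x) +
        g k (T^[n] x) * (starRingEnd ℂ) (g k x)) μ := i3.add i3
    have i44 : Integrable (fun x => (f (T^[n] x) - g k (T^[n] x)) * (starRingEnd ℂ) (f x - g k x) +
        (f (T^[n] x) - g k (T^[n] x)) * (starRingEnd ℂ) (f x - g k x)) μ := i4.add i4
    rw [← integral_add i1 i2, ← integral_add i3 i3, ← integral_add i4 i4, ← integral_add i33 i44]
    congr 1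
    ext x
    simp only [Pi.add_apply, map_sub, map_mul, map_ofNat]
    ring
  have hsing := fun k => hgs k (νg k) (hνg k)
  choose s hsm hs1 hs2 using hsing
  -- `s k` is null for `νg k`, its complement is null for the volume
  refine ⟨⋂ k, s k, MeasurableSet.iInter hsm, ?_, ?_⟩
  · have hle : ∀ k : ℕ, ν (⋂ k, s k) ≤ ENNReal.ofReal (2 * (1 / ((k : ℝ) + 1))) := by
      intro k
      have h1 : ν (⋂ k, s k) ≤ ν (s k) := measure_mono (iInter_subset _ _)
      have h2 : ν (s k) ≤ (ν + νe k) (s k) := by
        rw [Measure.add_apply]; exact le_self_add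
      have h3 : (ν + νe k) (s k) = νd k (s k) + νd k (s k) := by
        rw [hkey k]
        simp only [Measure.add_apply, hs1 k, zero_add]
      have h4 : νd k (s k) ≤ ENNReal.ofReal (1 / ((k : ℝ) + 1)) := by
        refine (measure_mono (subset_univ _)).trans ?_
        have h5 : (νd k).real univ ≤ 1 / ((k : ℝ) + 1) := by
          rw [C1_mass (hνd k)]
          exact (hgd k).le
        rw [← ENNReal.ofReal_toReal (measure_ne_top (νd k) univ)]
        exact ENNReal.ofReal_le_ofReal h5
      refine h1.trans (h2.trans ?_)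
      rw [h3]
      refine (add_le_add h4 h4).trans ?_
      rw [← ENNReal.ofReal_add (by positivity) (by positivity)]
      exact ENNReal.ofReal_le_ofReal (le_of_eq (by ring))
    have hlim : Tendsto (fun k : ℕ => ENNReal.ofReal (2 * (1 / ((k : ℝ) + 1)))) atTop (𝓝 0) := by
      have : Tendsto (fun k : ℕ => 2 * (1 / ((k : ℝ) + 1))) atTop (𝓝 (2 * 0)) :=
        tendsto_one_div_add_atTop_nhds_zero_nat.const_mul 2
      rw [mul_zero] at this
      have h := ENNReal.tendsto_ofReal this
      rwa [ENNReal.ofReal_zero] at h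
    exact le_antisymm (ge_of_tendsto' hlim hle) zero_le
  · rw [compl_iInter]
    exact measure_iUnion_null fun k => hs2 k

end Pool.Agent.Helper97.Sub
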